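import Mathlib
import Pool.Agent.Lib.MP_fd6ff4_co.R43.T1.PL

/-!
# The ridge problem on a triangle

The triangle is `stdSimplex ℝ (Fin 3)`. A ridge word `t : Fin 3 → Fin 3` gives a letter for each of
the three colours. `x i l` and `z i l` are the integer positions of the letter `l` of the colour `i`
(the real coordinate of the fibre, and the real part of the complex coordinate). Two disjoint words
`t`, `t'` cross if `x i (t i) - x i (t' i)` takes both signs; then `lin x t = lin x t'` on a segment
from one side of the triangle to another. The sides are numbered by the coordinate which vanishes.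
-/

set_option autoImplicit false

open Finset

namespace Pool.Agent.Lib.MP_fd6ff4_co.R43

abbrev RW : Type := Fin 3 → Fin 3

/-- the linear function with the value `p i (t i)` at the vertex `i` -/
noncomputable def lin (p : Fin 3 → Fin 3 → ℤ) (t : RW) : (Fin 3 → ℝ) →ₗ[ℝ] ℝ :=
  ∑ i, (p i (t i) : ℝ) • LinearMap.proj i

theorem lin_apply (p : Fin 3 → Fin 3 → ℤ) (t : RW) (l : Fin 3 → ℝ) :
    lin p t l = ∑ i, (p i (t i) : ℝ) * l i := by
  simp [lin]

/-- the difference of the positions -/
def dd (p : Fin 3 → Fin 3 → ℤ) (t t' : RW) (i : Fin 3) : ℤ := p i (t i) - p i (t' i)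

/-- disjoint words whose difference takes both signs -/
def Crossing (x : Fin 3 → Fin 3 → ℤ) (t t' : RW) : Prop :=
  (∀ i, t i ≠ t' i) ∧ ∃ i j, dd x t t' i < 0 ∧ 0 < dd x t t' j

instance (x : Fin 3 → Fin 3 → ℤ) (t t' : RW) : Decidable (Crossing x t t') := by
  unfold Crossing
  infer_instance

/-- the side `c` (where the coordinate `c` vanishes) meets the line `lin x t = lin x t'` inside -/
def Hit (x : Fin 3 → Fin 3 → ℤ) (t t' : RW) (c : Fin 3) : Prop :=
  ∃ a b, a ≠ c ∧ b ≠ c ∧ dd x t t' a < 0 ∧ 0 < dd x t t' b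

instance (x : Fin 3 → Fin 3 → ℤ) (t t' : RW) (c : Fin 3) : Decidable (Hit x t t' c) := by
  unfold Hit
  infer_instance

/-- the value of `lin z t - lin z t'` at the point of the line on the side `c`, up to a positive
factor: with `a, b` the two other coordinates, `|δ b| * ν a + |δ a| * ν b` -/
def sideVal (x z : Fin 3 → Fin 3 → ℤ) (t t' : RW) (c : Fin 3) : ℤ :=
  |dd x t t' (c + 2)| * dd z t t' (c + 1) + |dd x t t' (c + 1)| * dd z t t' (c + 2)

/-- the points of the triangle where the real coordinates of the words `t` and `t'` agree -/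
def Seg (x : Fin 3 → Fin 3 → ℤ) (t t' : RW) : Set (Fin 3 → ℝ) :=
  {l | l ∈ stdSimplex ℝ (Fin 3) ∧ lin x t l = lin x t' l}

/-- The certificate of a ridge: `W` are the ridge words, `T t t'` the numbers of half turns and
`v t t'` a point on the segment of `t` and `t'` off all the other lines of `t` and `t'`. -/
structure RidgeCert (x z : Fin 3 → Fin 3 → ℤ) (W : Finset RW) (T : RW → RW → ℤ)
    (v : RW → RW → Fin 3 → ℤ) : Prop where
  x_inj : ∀ i, Function.Injective (x i)
  /-- (K1) -/
  indep : ∀ t ∈ W, ∀ t' ∈ W, ∀ a b, a ≠ b → dd x t t' a < 0 → 0 < dd x t t' b →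
    dd x t t' a * dd z t t' b - dd x t t' b * dd z t t' a ≠ 0
  v_pos : ∀ t ∈ W, ∀ t' ∈ W, Crossing x t t' → ∀ i, 0 < v t t' i
  v_mem : ∀ t ∈ W, ∀ t' ∈ W, Crossing x t t' → ∑ i, dd x t t' i * v t t' i = 0
  /-- in the odd case `v` is the zero of the linear difference -/
  v_odd : ∀ t ∈ W, ∀ t' ∈ W, Crossing x t t' → ∀ c c', Hit x t t' c → Hit x t t' c' →
    0 < sideVal x z t t' c → sideVal x z t t' c' < 0 → ∑ i, dd z t t' i * v t t' i = 0
  v_off : ∀ t ∈ W, ∀ t' ∈ W, Crossing x t t' → ∀ s ∈ W, s ≠ t → s ≠ t' →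
    ∑ i, dd x t s i * v t t' i ≠ 0
  /-- the parity of the number of half turns -/
  parity : ∀ t ∈ W, ∀ t' ∈ W, Crossing x t t' → ∀ c c', c ≠ c' → Hit x t t' c → Hit x t t' c' →
    (Even (T t t') ↔ (0 < sideVal x z t t' c ↔ 0 < sideVal x z t t' c'))
  symm : ∀ t t', T t t' = T t' t

/-- The solution of the ridge problem: functions `β t` on the cone over the triangle, piecewise
linear, which vanish unless all coordinates are at least `w` times their sum, such that
* (R3) `β t = β t'` on the line of `t` and `t'` if these words have exactly one common letter,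
* (R1), (R2) for crossing words and integers `φ c` (phases at the sides, of the right parities) with
  `φ c - φ c' = T t t'` for `c < c'` (the two sides met by the line) there is a continuous logarithm
  of `lin z t - lin z t' + β t - β t'` on `Seg x t t'` with the value `log |·| + i π φ c` on the side
  `c`. -/
structure RidgeSol (x z : Fin 3 → Fin 3 → ℤ) (W : Finset RW) (T : RW → RW → ℤ)
    (β : RW → (Fin 3 → ℝ) → ℂ) (w : ℝ) : Prop where
  re_pl : ∀ t, IsPL fun l => (β t l).re
  im_pl : ∀ t, IsPL fun l => (β t l).im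
  supp : ∀ t l, (∀ i, 0 ≤ l i) → β t l ≠ 0 → ∀ i, w * ∑ j, l j ≤ l i
  one : ∀ t ∈ W, ∀ t' ∈ W, #{i | t i = t' i} = 1 → ∀ l, (∀ i, 0 ≤ l i) →
    lin x t l = lin x t' l → β t l = β t' l
  log : ∀ t ∈ W, ∀ t' ∈ W, Crossing x t t' → ∀ φ : Fin 3 → ℤ,
    (∀ c, Hit x t t' c → (Even (φ c) ↔ 0 < sideVal x z t t' c)) →
    (∀ c c', c < c' → Hit x t t' c → Hit x t t' c' → φ c - φ c' = T t t') →
    ∃ L : (Fin 3 → ℝ) → ℂ, ContinuousOn L (Seg x t t') ∧
      (∀ l ∈ Seg x t t', Complex.exp (L l) = (lin z t l - lin z t' l : ℝ) + (β t l - β t' l)) ∧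
      ∀ l ∈ Seg x t t', ∀ c, l c = 0 →
        L l = Real.log |lin z t l - lin z t' l| + Real.pi * φ c * Complex.I

end Pool.Agent.Lib.MP_fd6ff4_co.R43
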