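import Mathlib

/-!
# Logarithms on a segment
-/

set_option autoImplicit false

open Finset

namespace Pool.Agent.Lib.MP_fd6ff4_co.R43

theorem exp_pi_even {φ : ℤ} (h : Even φ) : Complex.exp (Real.pi * φ * Complex.I) = 1 := by
  obtain ⟨k, rfl⟩ := h
  have e : (Real.pi : ℂ) * ((k + k : ℤ) : ℂ) * Complex.I = k * (2 * Real.pi * Complex.I) := by
    push_cast
    ring
  rw [e, Complex.exp_int_mul_two_pi_mul_I]

theorem exp_pi_odd {φ : ℤ} (h : Odd φ) : Complex.exp (Real.pi * φ * Complex.I) = -1 := by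
  obtain ⟨k, rfl⟩ := h
  have e : (Real.pi : ℂ) * ((2 * k + 1 : ℤ) : ℂ) * Complex.I =
      k * (2 * Real.pi * Complex.I) + Real.pi * Complex.I := by
    push_cast
    ring
  rw [e, Complex.exp_add, Complex.exp_int_mul_two_pi_mul_I, Complex.exp_pi_mul_I, one_mul]

theorem exp_log_phase {y : ℝ} (hy : y ≠ 0) {φ : ℤ} (h : 0 < y ↔ Even φ) :
    Complex.exp (Real.log |y| + Real.pi * φ * Complex.I) = y := by
  rw [Complex.exp_add, ← Complex.ofReal_exp, Real.exp_log (abs_pos.2 hy)]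
  by_cases h0 : 0 < y
  · rw [exp_pi_even (h.1 h0), abs_of_pos h0, mul_one]
  · have h1 : Odd φ := Int.not_even_iff_odd.1 fun h2 => h0 (h.2 h2)
    have h2 : y < 0 := lt_of_le_of_ne (not_lt.1 h0) hy
    rw [exp_pi_odd h1, abs_of_neg h2]
    push_cast
    ring

/-- A logarithm with prescribed phases. `d` is a continuous real function without zeros on
`[0, 1] \ {τ₀}`, `φ₀` and `φ₁` are integers which are even iff `d` is positive on the left (on the
right) of `τ₀`. PROOF. `L = log |d| + i π φ₀` for `τ ≤ τ₀ - r`, `L = log |d| + i π φ₁` for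
`τ ≥ τ₀ + r`, and linear interpolation in between. -/
theorem exists_log_segment {d : ℝ → ℝ} (hd : Continuous d) {τ₀ r : ℝ} (hr : 0 < r)
    (h0 : 0 < τ₀ - r) (h1 : τ₀ + r < 1) (hne : ∀ τ, 0 ≤ τ → τ ≤ 1 → τ ≠ τ₀ → d τ ≠ 0)
    {φ₀ φ₁ : ℤ} (hφ₀ : ∀ τ, 0 ≤ τ → τ < τ₀ → (0 < d τ ↔ Even φ₀))
    (hφ₁ : ∀ τ, τ₀ < τ → τ ≤ 1 → (0 < d τ ↔ Even φ₁)) :
    ∃ L : ℝ → ℂ, ContinuousOn L (Set.Icc 0 1) ∧
      (∀ τ, 0 ≤ τ → τ ≤ τ₀ - r → L τ = Real.log |d τ| + Real.pi * φ₀ * Complex.I) ∧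
      (∀ τ, τ₀ + r ≤ τ → τ ≤ 1 → L τ = Real.log |d τ| + Real.pi * φ₁ * Complex.I) ∧
      ∀ τ, 0 ≤ τ → τ ≤ 1 → r ≤ |τ - τ₀| → Complex.exp (L τ) = d τ := by
  set s : ℝ → ℝ := fun τ => max 0 (min 1 ((τ - (τ₀ - r)) / (2 * r))) with hs
  have hsc : Continuous s := by
    rw [hs]
    fun_prop
  have hs0 : ∀ τ, τ ≤ τ₀ - r → s τ = 0 := by
    intro τ hτ
    have h2 : (τ - (τ₀ - r)) / (2 * r) ≤ 0 := div_nonpos_of_nonpos_of_nonneg (by linarith)
      (by linarith)
    exact max_eq_left ((min_le_right _ _).trans h2)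
  have hs1 : ∀ τ, τ₀ + r ≤ τ → s τ = 1 := by
    intro τ hτ
    have h2 : 1 ≤ (τ - (τ₀ - r)) / (2 * r) := by
      rw [le_div_iff₀ (by linarith)]
      linarith
    show max 0 (min 1 ((τ - (τ₀ - r)) / (2 * r))) = 1
    rw [min_eq_left h2]
    exact max_eq_right zero_le_one
  set L : ℝ → ℂ := fun τ =>
    ((Real.log |d (min τ (τ₀ - r))| : ℝ) + Real.pi * φ₀ * Complex.I) * ((1 - s τ : ℝ) : ℂ) +
    ((Real.log |d (max τ (τ₀ + r))| : ℝ) + Real.pi * φ₁ * Complex.I) * ((s τ : ℝ) : ℂ) with hL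
  have hLc : ContinuousOn L (Set.Icc 0 1) := by
    have c0 : ContinuousOn (fun τ => Real.log |d (min τ (τ₀ - r))|) (Set.Icc 0 1) := by
      refine ContinuousOn.log (by fun_prop) ?_
      intro τ hτ
      rw [abs_ne_zero]
      refine hne _ (le_min hτ.1 h0.le) ((min_le_left _ _).trans hτ.2) ?_
      have := min_le_right τ (τ₀ - r)
      intro h3
      linarith
    have c1 : ContinuousOn (fun τ => Real.log |d (max τ (τ₀ + r))|) (Set.Icc 0 1) := by
      refine ContinuousOn.log (by fun_prop) ?_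
      intro τ hτ
      rw [abs_ne_zero]
      refine hne _ (hτ.1.trans (le_max_left _ _)) (max_le hτ.2 h1.le) ?_
      have := le_max_right τ (τ₀ + r)
      intro h3
      linarith
    have c0' : ContinuousOn (fun τ => ((Real.log |d (min τ (τ₀ - r))| : ℝ) : ℂ))
        (Set.Icc 0 1) := Complex.continuous_ofReal.comp_continuousOn c0
    have c1' : ContinuousOn (fun τ => ((Real.log |d (max τ (τ₀ + r))| : ℝ) : ℂ))
        (Set.Icc 0 1) := Complex.continuous_ofReal.comp_continuousOn c1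
    have cs : Continuous (fun τ => ((s τ : ℝ) : ℂ)) := Complex.continuous_ofReal.comp hsc
    have cs' : Continuous (fun τ => ((1 - s τ : ℝ) : ℂ)) :=
      Complex.continuous_ofReal.comp (continuous_const.sub hsc)
    exact ((c0'.add continuousOn_const).mul cs'.continuousOn).add
      ((c1'.add continuousOn_const).mul cs.continuousOn)
  have hL0 : ∀ τ, 0 ≤ τ → τ ≤ τ₀ - r → L τ = Real.log |d τ| + Real.pi * φ₀ * Complex.I := by
    intro τ _ hτ
    simp only [hL, hs0 τ hτ, min_eq_left hτ]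
    push_cast
    ring
  have hL1 : ∀ τ, τ₀ + r ≤ τ → τ ≤ 1 → L τ = Real.log |d τ| + Real.pi * φ₁ * Complex.I := by
    intro τ hτ _
    simp only [hL, hs1 τ hτ, max_eq_left hτ]
    push_cast
    ring
  refine ⟨L, hLc, hL0, hL1, ?_⟩
  intro τ ht0 ht1 hτ
  rcases le_abs'.1 hτ with h2 | h2
  · have h3 : τ ≤ τ₀ - r := by linarith
    rw [hL0 τ ht0 h3]
    exact exp_log_phase (hne τ ht0 ht1 (by intro h4; linarith)) (hφ₀ τ ht0 (by linarith))
  · have h3 : τ₀ + r ≤ τ := by linarith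
    rw [hL1 τ h3 ht1]
    exact exp_log_phase (hne τ ht0 ht1 (by intro h4; linarith)) (hφ₁ τ (by linarith) ht1)

theorem mem_slitPlane_of_close {z : ℂ} (h : ‖z - 1‖ < 1) : z ∈ Complex.slitPlane := by
  rw [Complex.mem_slitPlane_iff]
  left
  have h1 : |(z - 1).re| ≤ ‖z - 1‖ := Complex.abs_re_le_norm _
  have h2 := (abs_le.1 h1).1
  rw [Complex.sub_re, Complex.one_re] at h2
  linarith

/-- Extension of a logarithm to a neighbourhood. PROOF. Extend `L` from the closed set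
`{z ∈ Z | m z = 0}` to a continuous function `L₁` (Tietze). `D * exp (-L₁)` is continuous on `Z` and
equal to `1` where `m = 0`, so by compactness there is `ε > 0` such that it is in the ball with the
centre `1` and the radius `1/2` where `m ≤ ε`; `L' = L₁ + log (D * exp (-L₁))`. -/
theorem exists_log_near {X : Type*} [MetricSpace X] {Z : Set X} (hZ : IsCompact Z) {m : X → ℝ}
    (hm : ContinuousOn m Z) (hm0 : ∀ z ∈ Z, 0 ≤ m z) {D L : X → ℂ} (hD : ContinuousOn D Z)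
    (hL : ContinuousOn L {z | z ∈ Z ∧ m z = 0})
    (hexp : ∀ z ∈ Z, m z = 0 → Complex.exp (L z) = D z) :
    ∃ ε : ℝ, 0 < ε ∧ ∃ L' : X → ℂ, ContinuousOn L' {z | z ∈ Z ∧ m z ≤ ε} ∧
      (∀ z ∈ Z, m z = 0 → L' z = L z) ∧ ∀ z ∈ Z, m z ≤ ε → Complex.exp (L' z) = D z := by
  have hcl : IsClosed {z | z ∈ Z ∧ m z = 0} :=
    hm.preimage_isClosed_of_isClosed hZ.isClosed isClosed_singleton
  obtain ⟨L₁, hL₁⟩ := ContinuousMap.exists_restrict_eq hcl
    (⟨Set.domRestrict {z | z ∈ Z ∧ m z = 0} L, hL.domRestrict⟩ : C({z | z ∈ Z ∧ m z = 0}, ℂ))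
  have hL₁' : ∀ z ∈ Z, m z = 0 → L₁ z = L z := by
    intro z hz hz0
    exact congrArg (fun g : C({z | z ∈ Z ∧ m z = 0}, ℂ) => g ⟨z, hz, hz0⟩) hL₁
  set E : X → ℂ := fun z => D z * Complex.exp (-L₁ z) with hE
  have hEc : ContinuousOn E Z :=
    hD.mul (Complex.continuous_exp.comp (L₁.continuous.neg)).continuousOn
  have hE1 : ∀ z ∈ Z, m z = 0 → E z = 1 := by
    intro z hz hz0
    show D z * Complex.exp (-L₁ z) = 1
    rw [← hexp z hz hz0, hL₁' z hz hz0, ← Complex.exp_add, add_neg_cancel, Complex.exp_zero]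
  have hE2 : ∀ z, Complex.exp (L₁ z) * E z = D z := by
    intro z
    show Complex.exp (L₁ z) * (D z * Complex.exp (-L₁ z)) = D z
    rw [mul_comm (D z), ← mul_assoc, ← Complex.exp_add, add_neg_cancel, Complex.exp_zero, one_mul]
  have hBcl : IsClosed (Z ∩ (fun z => ‖E z - 1‖) ⁻¹' Set.Ici (1 / 2)) :=
    ((hEc.sub continuousOn_const).norm).preimage_isClosed_of_isClosed hZ.isClosed isClosed_Ici
  have hB : IsCompact (Z ∩ (fun z => ‖E z - 1‖) ⁻¹' Set.Ici (1 / 2)) :=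
    hZ.of_isClosed_subset hBcl Set.inter_subset_left
  obtain ⟨ε, hε, hεB⟩ : ∃ ε : ℝ, 0 < ε ∧ ∀ z ∈ Z, m z ≤ ε → ‖E z - 1‖ < 1 := by
    rcases (Z ∩ (fun z => ‖E z - 1‖) ⁻¹' Set.Ici (1 / 2)).eq_empty_or_nonempty with h | h
    · refine ⟨1, one_pos, fun z hz _ => ?_⟩
      by_contra h2
      have h3 : z ∈ Z ∩ (fun z => ‖E z - 1‖) ⁻¹' Set.Ici (1 / 2) :=
        ⟨hz, by
          show (1 / 2 : ℝ) ≤ ‖E z - 1‖
          linarith [not_lt.1 h2]⟩
      rw [h] at h3
      exact h3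
    · obtain ⟨z₀, hz₀, hmin⟩ := hB.exists_isMinOn h (hm.mono Set.inter_subset_left)
      have h4 : 0 < m z₀ := by
        refine lt_of_le_of_ne (hm0 z₀ hz₀.1) fun h5 => ?_
        have h6 := hE1 z₀ hz₀.1 h5.symm
        have h7 : (1 / 2 : ℝ) ≤ ‖E z₀ - 1‖ := hz₀.2
        rw [h6, sub_self, norm_zero] at h7
        linarith
      refine ⟨m z₀ / 2, by linarith, fun z hz hz1 => ?_⟩
      by_contra h2
      have h3 : z ∈ Z ∩ (fun z => ‖E z - 1‖) ⁻¹' Set.Ici (1 / 2) :=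
        ⟨hz, by
          show (1 / 2 : ℝ) ≤ ‖E z - 1‖
          linarith [not_lt.1 h2]⟩
      have h8 : m z₀ ≤ m z := hmin h3
      linarith
  refine ⟨ε, hε, fun z => L₁ z + Complex.log (E z), ?_, ?_, ?_⟩
  · refine L₁.continuous.continuousOn.add ?_
    refine ContinuousOn.clog (hEc.mono fun z hz => hz.1) fun z hz => ?_
    exact mem_slitPlane_of_close (hεB z hz.1 hz.2)
  · intro z hz hz0
    show L₁ z + Complex.log (E z) = L z
    rw [hE1 z hz hz0, Complex.log_one, add_zero, hL₁' z hz hz0]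
  · intro z hz hz1
    show Complex.exp (L₁ z + Complex.log (E z)) = D z
    rw [Complex.exp_add, Complex.exp_log, hE2]
    exact Complex.slitPlane_ne_zero (mem_slitPlane_of_close (hεB z hz hz1))

/-- Small changes of a function with a logarithm. PROOF. `L' = L + log (D' / D)`, and
`‖D' / D - 1‖ < 1`. -/
theorem exists_log_of_close {X : Type*} [TopologicalSpace X] {Z : Set X} {D D' L : X → ℂ}
    (hD : ContinuousOn D Z) (hD' : ContinuousOn D' Z) (hL : ContinuousOn L Z)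
    (hexp : ∀ z ∈ Z, Complex.exp (L z) = D z) (hlt : ∀ z ∈ Z, ‖D' z - D z‖ < ‖D z‖) :
    ∃ L' : X → ℂ, ContinuousOn L' Z ∧ (∀ z ∈ Z, Complex.exp (L' z) = D' z) ∧
      ∀ z ∈ Z, D' z = D z → L' z = L z := by
  have hne : ∀ z ∈ Z, D z ≠ 0 := by
    intro z hz
    rw [← hexp z hz]
    exact Complex.exp_ne_zero _
  have hsl : ∀ z ∈ Z, D' z / D z ∈ Complex.slitPlane := by
    intro z hz
    refine mem_slitPlane_of_close ?_
    have h1 : D' z / D z - 1 = (D' z - D z) / D z := by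
      rw [sub_div, div_self (hne z hz)]
    rw [h1, norm_div, div_lt_one (norm_pos_iff.2 (hne z hz))]
    exact hlt z hz
  refine ⟨fun z => L z + Complex.log (D' z / D z), ?_, ?_, ?_⟩
  · exact hL.add (ContinuousOn.clog (hD'.div hD hne) hsl)
  · intro z hz
    show Complex.exp (L z + Complex.log (D' z / D z)) = D' z
    rw [Complex.exp_add, hexp z hz, Complex.exp_log (Complex.slitPlane_ne_zero (hsl z hz)),
      mul_div_cancel₀ _ (hne z hz)]
  · intro z hz h
    show L z + Complex.log (D' z / D z) = L z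
    rw [h, div_self (hne z hz), Complex.log_one, add_zero]

end Pool.Agent.Lib.MP_fd6ff4_co.R43
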