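import Mathlib
import Pool.Agent.Lib.MP_fd6ff4_co.R43.T1.Ridge.Defs
import Pool.Agent.Lib.MP_fd6ff4_co.R43.T1.Ridge.OneD
import Pool.Agent.Lib.MP_fd6ff4_co.R43.T1.PLDense

/-!
# The gauge and the segment of a crossing pair of ridge words
-/

set_option autoImplicit false

open Finset

namespace Pool.Agent.Lib.MP_fd6ff4_co.R43

variable {x z : Fin 3 → Fin 3 → ℤ} {W : Finset RW} {T : RW → RW → ℤ}
  {v : RW → RW → Fin 3 → ℤ}

theorem bumpa_diff (q : Fin 3 → Fin 3 → ℤ) (t t' : RW) (l : Fin 3 → ℝ) :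
    lin q t l - lin q t' l = ∑ i, (dd q t t' i : ℝ) * l i := by
  rw [lin_apply, lin_apply, ← Finset.sum_sub_distrib]
  refine Finset.sum_congr rfl fun i _ => ?_
  unfold dd
  push_cast
  ring

private theorem bumpa_gauge {κ : Type} (F : κ → (Fin 3 → ℝ) → ℝ) (hF : ∀ k, IsPL (F k))
    {q₀ : (Fin 3 → ℝ) → ℝ} (hq₀ : IsPL q₀) (w : Fin 3 → ℝ) (h0 : 0 < q₀ w) (s : Finset κ)
    (hw : ∀ k ∈ s, 0 < F k w) : ∃ q : (Fin 3 → ℝ) → ℝ, IsPL q ∧ (∀ l, q l ≤ q₀ l) ∧
      (∀ k ∈ s, ∀ l, q l ≤ F k l) ∧ 0 < q w := by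
  classical
  induction s using Finset.induction_on with
  | empty => exact ⟨q₀, hq₀, fun _ => le_rfl, fun k hk => absurd hk (Finset.notMem_empty k), h0⟩
  | insert a s _ ih =>
    obtain ⟨q, h1, h2, h3, h4⟩ := ih fun k hk => hw k (Finset.mem_insert_of_mem hk)
    refine ⟨fun l => min (q l) (F a l), h1.inf (hF a), fun l => (min_le_left _ _).trans (h2 l),
      fun k hk l => ?_, lt_min h4 (hw a (Finset.mem_insert_self a s))⟩
    rcases Finset.mem_insert.1 hk with rfl | hk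
    · exact min_le_right _ _
    · exact (min_le_left _ _).trans (h3 k hk l)

/-- PROOF. The minimum of the coordinates and of the `|lin x s l - lin x t l|`, `s ∈ W`, `s ≠ t`,
`s ≠ t'` (`Finset.induction`, `IsPL.inf`, `IsPL.sup`); at `v t t'` all of them are positive
(`v_pos`, `v_off`). -/
theorem exists_gauge (h : RidgeCert x z W T v) {t t' : RW} (ht : t ∈ W) (ht' : t' ∈ W)
    (hc : Crossing x t t') : ∃ q : (Fin 3 → ℝ) → ℝ, IsPL q ∧
      (∀ l : Fin 3 → ℝ, (∀ i, 0 ≤ l i) → ∀ i, q l ≤ l i) ∧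
      (∀ l : Fin 3 → ℝ, (∀ i, 0 ≤ l i) → ∀ s ∈ W, s ≠ t → s ≠ t' →
        q l ≤ |lin x s l - lin x t l|) ∧
      0 < q fun i => (v t t' i : ℝ) := by
  have hp : ∀ i, (0 : ℝ) < v t t' i := fun i => by exact_mod_cast h.v_pos t ht t' ht' hc i
  have hL : ∀ i : Fin 3, IsPL fun l : Fin 3 → ℝ => l i := fun i =>
    IsPL.linear (LinearMap.proj (R := ℝ) (φ := fun _ : Fin 3 => ℝ) i)
  obtain ⟨q, h1, h2, h3, h4⟩ := bumpa_gauge
    (fun s l => max ((lin x s - lin x t) l) ((lin x t - lin x s) l))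
    (fun s => (IsPL.linear (lin x s - lin x t)).sup (IsPL.linear (lin x t - lin x s)))
    ((hL 0).inf ((hL 1).inf (hL 2))) (fun i => (v t t' i : ℝ))
    (lt_min (hp 0) (lt_min (hp 1) (hp 2))) (W.filter fun s => s ≠ t ∧ s ≠ t') (by
      intro s hs
      obtain ⟨hs1, hs2, hs3⟩ := Finset.mem_filter.1 hs
      have h5 := h.v_off t ht t' ht' hc s hs1 hs2 hs3
      have h6 : (∑ i, (dd x t s i : ℝ) * (v t t' i : ℝ)) ≠ 0 := by exact_mod_cast h5
      rw [← bumpa_diff] at h6
      rcases lt_or_gt_of_ne h6 with h7 | h7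
      · refine lt_max_of_lt_left ?_
        rw [LinearMap.sub_apply]
        linarith
      · refine lt_max_of_lt_right ?_
        rw [LinearMap.sub_apply]
        linarith)
  refine ⟨q, h1, fun l _ i => (h2 l).trans ?_, fun l _ s hs hs1 hs2 => ?_, h4⟩
  · fin_cases i
    · exact min_le_left _ _
    · exact (min_le_right _ _).trans (min_le_left _ _)
    · exact (min_le_right _ _).trans (min_le_right _ _)
  · refine (h3 s (Finset.mem_filter.2 ⟨hs, hs1, hs2⟩) l).trans (max_le ?_ ?_)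
    · rw [LinearMap.sub_apply]
      exact le_abs_self _
    · rw [LinearMap.sub_apply]
      exact (neg_sub _ _).symm.le.trans (neg_le_abs _)

private theorem bumpa_core {t t' : RW} {o p p' : Fin 3} (hop : o ≠ p) (hop' : o ≠ p')
    (hpp : p < p') (hs : (0 < dd x t t' o ∧ dd x t t' p < 0 ∧ dd x t t' p' < 0) ∨
      (dd x t t' o < 0 ∧ 0 < dd x t t' p ∧ 0 < dd x t t' p')) :
    ∃ (p p' : Fin 3) (E E' : Fin 3 → ℝ) (κ κ' : ℝ), p < p' ∧ Hit x t t' p ∧
      Hit x t t' p' ∧ (∀ c, Hit x t t' c → c = p ∨ c = p') ∧ E ∈ Seg x t t' ∧ E' ∈ Seg x t t' ∧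
      E p = 0 ∧ E' p' = 0 ∧ 0 < E' p ∧ 0 < E p' ∧ 0 < κ ∧ 0 < κ' ∧
      lin z t E - lin z t' E = κ * sideVal x z t t' p ∧
      lin z t E' - lin z t' E' = κ' * sideVal x z t t' p' ∧
      ∀ l ∈ Seg x t t', 0 ≤ l p / E' p ∧ l p / E' p ≤ 1 ∧
        l = (1 - l p / E' p) • E + (l p / E' p) • E' := by
  have hne : p ≠ p' := hpp.ne
  have hcov : ∀ i : Fin 3, i = o ∨ i = p ∨ i = p' := by
    revert hop hop' hne
    clear hs hpp
    revert o p p'
    decide
  have hix : ∀ o p p' : Fin 3, o ≠ p → o ≠ p' → p ≠ p' →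
      (p + 1 = o ∧ p + 2 = p') ∨ (p + 1 = p' ∧ p + 2 = o) := by decide
  have hsum : ∀ f : Fin 3 → ℝ, ∑ i, f i = f o + (f p + f p') := by
    intro f
    have hu : (Finset.univ : Finset (Fin 3)) = {o, p, p'} := by
      ext i
      simp only [Finset.mem_univ, Finset.mem_insert, Finset.mem_singleton, true_iff]
      exact hcov i
    rw [hu, Finset.sum_insert (by simp [hop, hop']), Finset.sum_pair hne]
  obtain ⟨a, ha⟩ : ∃ a : ℝ, a = |(dd x t t' o : ℝ)| := ⟨_, rfl⟩
  obtain ⟨b, hb⟩ : ∃ b : ℝ, b = |(dd x t t' p : ℝ)| := ⟨_, rfl⟩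
  obtain ⟨c, hc⟩ : ∃ c : ℝ, c = |(dd x t t' p' : ℝ)| := ⟨_, rfl⟩
  have ha0 : 0 < a := by
    rw [ha, abs_pos]
    exact_mod_cast (hs.elim (fun h => h.1.ne') fun h => h.1.ne)
  have hb0 : 0 < b := by
    rw [hb, abs_pos]
    exact_mod_cast (hs.elim (fun h => h.2.1.ne) fun h => h.2.1.ne')
  have hc0 : 0 < c := by
    rw [hc, abs_pos]
    exact_mod_cast (hs.elim (fun h => h.2.2.ne) fun h => h.2.2.ne')
  have hz : ∀ l : Fin 3 → ℝ, lin x t l = lin x t' l ↔ a * l o = b * l p + c * l p' := by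
    intro l
    rw [← sub_eq_zero, bumpa_diff, hsum]
    rcases hs with ⟨s1, s2, s3⟩ | ⟨s1, s2, s3⟩
    · have r1 : (0 : ℝ) < dd x t t' o := by exact_mod_cast s1
      have r2 : (dd x t t' p : ℝ) < 0 := by exact_mod_cast s2
      have r3 : (dd x t t' p' : ℝ) < 0 := by exact_mod_cast s3
      rw [ha, hb, hc, abs_of_pos r1, abs_of_neg r2, abs_of_neg r3]
      constructor <;> intro h <;> linarith
    · have r1 : (dd x t t' o : ℝ) < 0 := by exact_mod_cast s1
      have r2 : (0 : ℝ) < dd x t t' p := by exact_mod_cast s2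
      have r3 : (0 : ℝ) < dd x t t' p' := by exact_mod_cast s3
      rw [ha, hb, hc, abs_of_neg r1, abs_of_pos r2, abs_of_pos r3]
      constructor <;> intro h <;> linarith
  have hsv : (sideVal x z t t' p : ℝ) = c * dd z t t' o + a * dd z t t' p' := by
    unfold sideVal
    push_cast
    rcases hix o p p' hop hop' hne with ⟨e1, e2⟩ | ⟨e1, e2⟩
    · rw [e1, e2, ha, hc]
    · rw [e1, e2, ha, hc]
      ring
  have hsv' : (sideVal x z t t' p' : ℝ) = b * dd z t t' o + a * dd z t t' p := by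
    unfold sideVal
    push_cast
    rcases hix o p' p hop' hop hne.symm with ⟨e1, e2⟩ | ⟨e1, e2⟩
    · rw [e1, e2, ha, hb]
    · rw [e1, e2, ha, hb]
      ring
  have hS : 0 < a + c := by linarith
  have hS' : 0 < a + b := by linarith
  obtain ⟨E, hEo, hEp, hEp'⟩ : ∃ E : Fin 3 → ℝ, E o = c / (a + c) ∧ E p = 0 ∧
      E p' = a / (a + c) := by
    refine ⟨fun i => if i = p then 0 else if i = p' then a / (a + c) else c / (a + c), ?_, ?_, ?_⟩
    · simp [hop, hop']
    · simp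
    · simp [hne.symm]
  obtain ⟨E', hEo2, hEp2, hEp2'⟩ : ∃ E' : Fin 3 → ℝ, E' o = b / (a + b) ∧ E' p = a / (a + b) ∧
      E' p' = 0 := by
    refine ⟨fun i => if i = p' then 0 else if i = p then a / (a + b) else b / (a + b), ?_, ?_, ?_⟩
    · simp [hop, hop']
    · simp [hne]
    · simp
  refine ⟨p, p', E, E', 1 / (a + c), 1 / (a + b), hpp, ?_, ?_, ?_, ⟨⟨fun i => ?_, ?_⟩, ?_⟩,
    ⟨⟨fun i => ?_, ?_⟩, ?_⟩, hEp, hEp2', ?_, ?_, by positivity, by positivity, ?_, ?_,
    fun l hl => ?_⟩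
  · rcases hs with ⟨s1, s2, s3⟩ | ⟨s1, s2, s3⟩
    · exact ⟨p', o, hne.symm, hop, s3, s1⟩
    · exact ⟨o, p', hop, hne.symm, s1, s3⟩
  · rcases hs with ⟨s1, s2, s3⟩ | ⟨s1, s2, s3⟩
    · exact ⟨p, o, hne, hop', s2, s1⟩
    · exact ⟨o, p, hop', hne, s1, s2⟩
  · rintro e ⟨i, j, hi, hj, di, dj⟩
    rcases hcov e with rfl | he | he
    · exfalso
      have hi2 := (hcov i).resolve_left hi
      have hj2 := (hcov j).resolve_left hj
      rcases hs with ⟨s1, s2, s3⟩ | ⟨s1, s2, s3⟩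
      · rcases hj2 with rfl | rfl <;> omega
      · rcases hi2 with rfl | rfl <;> omega
    · exact Or.inl he
    · exact Or.inr he
  · rcases hcov i with rfl | rfl | rfl
    · rw [hEo]
      positivity
    · rw [hEp]
    · rw [hEp']
      positivity
  · rw [hsum, hEo, hEp, hEp']
    field_simp
    ring
  · rw [hz, hEo, hEp, hEp']
    ring
  · rcases hcov i with rfl | rfl | rfl
    · rw [hEo2]
      positivity
    · rw [hEp2]
      positivity
    · rw [hEp2']
  · rw [hsum, hEo2, hEp2, hEp2']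
    field_simp
    ring
  · rw [hz, hEo2, hEp2, hEp2']
    ring
  · rw [hEp2]
    positivity
  · rw [hEp']
    positivity
  · rw [bumpa_diff, hsum, hEo, hEp, hEp', hsv]
    ring
  · rw [bumpa_diff, hsum, hEo2, hEp2, hEp2', hsv']
    ring
  · obtain ⟨⟨hl0, hl1⟩, hl2⟩ := hl
    rw [hz] at hl2
    rw [hsum] at hl1
    have key : (a + b) * l p + (a + c) * l p' = a := by
      have h1 : l o = 1 - l p - l p' := by linarith
      rw [h1] at hl2
      linarith
    have h3 : l p / E' p = (a + b) * l p / a := by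
      rw [hEp2]
      field_simp
    have h4 : 0 ≤ (a + b) * l p := mul_nonneg hS'.le (hl0 p)
    have h5 : 0 ≤ (a + c) * l p' := mul_nonneg hS.le (hl0 p')
    have h6 : 1 - (a + b) * l p / a = (a + c) * l p' / a := by
      rw [eq_div_iff ha0.ne', sub_mul, div_mul_cancel₀ _ ha0.ne']
      linarith
    refine ⟨?_, ?_, ?_⟩
    · rw [h3]
      exact div_nonneg h4 ha0.le
    · rw [h3, div_le_one ha0]
      linarith
    · rw [h3, h6]
      funext i
      rw [Pi.add_apply, Pi.smul_apply, Pi.smul_apply, smul_eq_mul, smul_eq_mul]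
      rcases hcov i with rfl | rfl | rfl
      · rw [hEo, hEo2]
        have e1 : (a + c) * l p' / a * (c / (a + c)) = c * l p' / a := by
          field_simp
        have e2 : (a + b) * l p / a * (b / (a + b)) = b * l p / a := by
          field_simp
        rw [e1, e2, ← add_div, eq_div_iff ha0.ne']
        linarith
      · rw [hEp, hEp2]
        field_simp
        ring
      · rw [hEp', hEp2']
        field_simp
        ring

/-- The segment. PROOF. Exactly one colour `o` has the sign of `δ = dd x t t'` opposite to those of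
the other two colours `p < p'`; the sides which are hit are `p` and `p'`. Let `E c` be the point of
the line on the side `c` (`E c c = 0`, the two other coordinates are proportional to the absolute
values of `δ` at the other one). Every point of `Seg x t t'` is `(1 - τ) E p + τ E p'` for a unique
`τ ∈ [0, 1]` (`τ = l p / E p' p`). -/
theorem exists_seg_param (h : RidgeCert x z W T v) {t t' : RW} (ht : t ∈ W) (ht' : t' ∈ W)
    (hc : Crossing x t t') : ∃ (p p' : Fin 3) (E E' : Fin 3 → ℝ) (κ κ' : ℝ), p < p' ∧ Hit x t t' p ∧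
      Hit x t t' p' ∧ (∀ c, Hit x t t' c → c = p ∨ c = p') ∧ E ∈ Seg x t t' ∧ E' ∈ Seg x t t' ∧
      E p = 0 ∧ E' p' = 0 ∧ 0 < E' p ∧ 0 < E p' ∧ 0 < κ ∧ 0 < κ' ∧
      lin z t E - lin z t' E = κ * sideVal x z t t' p ∧
      lin z t E' - lin z t' E' = κ' * sideVal x z t t' p' ∧
      ∀ l ∈ Seg x t t', 0 ≤ l p / E' p ∧ l p / E' p ≤ 1 ∧
        l = (1 - l p / E' p) • E + (l p / E' p) • E' := by
  obtain ⟨hne, i, j, hi, hj⟩ := hc
  have hd : ∀ k, dd x t t' k ≠ 0 := by
    intro k hk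
    unfold dd at hk
    exact hne k (h.x_inj k (by omega))
  rcases lt_or_gt_of_ne (hd 0) with h0 | h0 <;> rcases lt_or_gt_of_ne (hd 1) with h1 | h1 <;>
    rcases lt_or_gt_of_ne (hd 2) with h2 | h2
  · exfalso
    fin_cases j <;> simp only [Fin.zero_eta, Fin.mk_one, Fin.reduceFinMk] at hj <;> omega
  · exact bumpa_core (o := 2) (p := 0) (p' := 1) (by decide) (by decide) (by decide)
      (Or.inl ⟨h2, h0, h1⟩)
  · exact bumpa_core (o := 1) (p := 0) (p' := 2) (by decide) (by decide) (by decide)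
      (Or.inl ⟨h1, h0, h2⟩)
  · exact bumpa_core (o := 0) (p := 1) (p' := 2) (by decide) (by decide) (by decide)
      (Or.inr ⟨h0, h1, h2⟩)
  · exact bumpa_core (o := 0) (p := 1) (p' := 2) (by decide) (by decide) (by decide)
      (Or.inl ⟨h0, h1, h2⟩)
  · exact bumpa_core (o := 1) (p := 0) (p' := 2) (by decide) (by decide) (by decide)
      (Or.inr ⟨h1, h0, h2⟩)
  · exact bumpa_core (o := 2) (p := 0) (p' := 1) (by decide) (by decide) (by decide)
      (Or.inr ⟨h2, h0, h1⟩)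
  · exfalso
    fin_cases i <;> simp only [Fin.zero_eta, Fin.mk_one, Fin.reduceFinMk] at hi <;> omega

end Pool.Agent.Lib.MP_fd6ff4_co.R43
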