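import Mathlib
import Pool.Agent.Lib.MP_fd6ff4_co.R43.T1.Ridge.Defs

/-!
# Auxiliary lemmas for the continuous bump: sides which are hit, signs of affine functions
-/

set_option autoImplicit false

open Finset

namespace Pool.Agent.Lib.MP_fd6ff4_co.R43

variable {x z : Fin 3 → Fin 3 → ℤ} {W : Finset RW} {T : RW → RW → ℤ}
  {v : RW → RW → Fin 3 → ℤ}

/-- The log property for the pair `t`, `t'` and the perturbation `B`. -/
def LogProp (x z : Fin 3 → Fin 3 → ℤ) (T : RW → RW → ℤ) (t t' : RW) (B : (Fin 3 → ℝ) → ℂ) : Prop :=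
  ∀ φ : Fin 3 → ℤ, (∀ c, Hit x t t' c → (Even (φ c) ↔ 0 < sideVal x z t t' c)) →
    (∀ c c', c < c' → Hit x t t' c → Hit x t t' c' → φ c - φ c' = T t t') →
    ∃ L : (Fin 3 → ℝ) → ℂ, ContinuousOn L (Seg x t t') ∧
      (∀ l ∈ Seg x t t', Complex.exp (L l) = (lin z t l - lin z t' l : ℝ) + B l) ∧
      ∀ l ∈ Seg x t t', ∀ c, l c = 0 →
        L l = Real.log |lin z t l - lin z t' l| + Real.pi * φ c * Complex.I

theorem bumpB_sum (f : Fin 3 → ℝ) (c : Fin 3) : ∑ i, f i = f c + f (c + 1) + f (c + 2) := by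
  rw [Fin.sum_univ_three]
  fin_cases c
  · rfl
  · change f 0 + f 1 + f 2 = f 1 + f 2 + f 0
    ring
  · change f 0 + f 1 + f 2 = f 2 + f 0 + f 1
    ring

theorem bumpB_lin (z : Fin 3 → Fin 3 → ℤ) (t t' : RW) (l : Fin 3 → ℝ) :
    lin z t l - lin z t' l = ∑ i, (dd z t t' i : ℝ) * l i := by
  rw [lin_apply, lin_apply, ← Finset.sum_sub_distrib]
  refine Finset.sum_congr rfl fun i _ => ?_
  rw [dd]
  push_cast
  ring

/-- a side with a point of the segment is hit -/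
theorem bumpB_hit (hinj : ∀ i, Function.Injective (x i)) {t t' : RW} (hc : Crossing x t t')
    {l : Fin 3 → ℝ} (hl : l ∈ Seg x t t') {c : Fin 3} (h0 : l c = 0) : Hit x t t' c := by
  have hd : ∀ i, dd x t t' i ≠ 0 := fun i h => hc.1 i (hinj i (sub_eq_zero.1 h))
  obtain ⟨⟨hl0, hl1⟩, hl2⟩ := hl
  have h1 : ∑ i, (dd x t t' i : ℝ) * l i = 0 := by
    rw [← bumpB_lin, hl2, sub_self]
  rw [bumpB_sum _ c, h0] at h1
  rw [bumpB_sum _ c, h0] at hl1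
  have ha := hl0 (c + 1)
  have hb := hl0 (c + 2)
  have hca : c + 1 ≠ c := (by decide : ∀ c : Fin 3, c + 1 ≠ c) c
  have hcb : c + 2 ≠ c := (by decide : ∀ c : Fin 3, c + 2 ≠ c) c
  rcases lt_or_gt_of_ne (hd (c + 1)) with h2 | h2 <;> rcases lt_or_gt_of_ne (hd (c + 2)) with h3 | h3
  · exfalso
    have h4 : (dd x t t' (c + 1) : ℝ) ≤ -1 := by exact_mod_cast Int.le_sub_one_of_lt h2
    have h5 : (dd x t t' (c + 2) : ℝ) ≤ -1 := by exact_mod_cast Int.le_sub_one_of_lt h3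
    nlinarith
  · exact ⟨c + 1, c + 2, hca, hcb, h2, h3⟩
  · exact ⟨c + 2, c + 1, hcb, hca, h3, h2⟩
  · exfalso
    have h4 : (1 : ℝ) ≤ dd x t t' (c + 1) := by exact_mod_cast h2
    have h5 : (1 : ℝ) ≤ dd x t t' (c + 2) := by exact_mod_cast h3
    nlinarith

theorem bumpB_side (h : RidgeCert x z W T v) {t t' : RW} (ht : t ∈ W) (ht' : t' ∈ W)
    {c : Fin 3} (hh : Hit x t t' c) : sideVal x z t t' c ≠ 0 := by
  obtain ⟨a, b, ha, hb, hda, hdb⟩ := hh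
  have hab : a ≠ b := by
    rintro rfl
    exact lt_asymm hda hdb
  have h1 := h.indep t ht t' ht' a b hab hda hdb
  have h2 : ∀ c a b : Fin 3, a ≠ c → b ≠ c → a ≠ b →
      (a = c + 1 ∧ b = c + 2) ∨ (a = c + 2 ∧ b = c + 1) := by decide
  rcases h2 c a b ha hb hab with ⟨e1, e2⟩ | ⟨e1, e2⟩
  · rw [sideVal, ← e1, ← e2, abs_of_pos hdb, abs_of_neg hda]
    intro h3
    apply h1
    linear_combination -h3
  · rw [sideVal, ← e1, ← e2, abs_of_pos hdb, abs_of_neg hda]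
    intro h3
    apply h1
    linear_combination -h3

/-- The signs of an affine function on `[0, 1]`. -/
theorem bumpB_sign {d₀ d₁ τ₀ : ℝ} (h0 : d₀ ≠ 0) (h1 : d₁ ≠ 0)
    (hz : (0 < d₀ ∧ d₁ < 0 ∨ d₀ < 0 ∧ 0 < d₁) → (1 - τ₀) * d₀ + τ₀ * d₁ = 0) :
    (∀ τ, 0 ≤ τ → τ ≤ 1 → τ ≠ τ₀ → (1 - τ) * d₀ + τ * d₁ ≠ 0) ∧
      (∀ τ, 0 ≤ τ → τ ≤ 1 → τ < τ₀ → (0 < (1 - τ) * d₀ + τ * d₁ ↔ 0 < d₀)) ∧
      ∀ τ, 0 ≤ τ → τ₀ < τ → τ ≤ 1 → (0 < (1 - τ) * d₀ + τ * d₁ ↔ 0 < d₁) := by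
  rcases lt_or_gt_of_ne h0 with h2 | h2 <;> rcases lt_or_gt_of_ne h1 with h3 | h3
  · have key : ∀ τ, 0 ≤ τ → τ ≤ 1 → (1 - τ) * d₀ + τ * d₁ < 0 := by
      intro τ h4 h5
      rcases h4.eq_or_lt with h6 | h6
      · rw [← h6]
        linarith
      · nlinarith [mul_neg_of_pos_of_neg h6 h3]
    exact ⟨fun τ h4 h5 _ => (key τ h4 h5).ne, fun τ h4 h5 _ => by
      constructor <;> intro h6 <;> linarith [key τ h4 h5], fun τ h4 _ h5 => by
      constructor <;> intro h6 <;> linarith [key τ h4 h5]⟩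
  · have e := hz (Or.inr ⟨h2, h3⟩)
    have e2 : ∀ τ, (1 - τ) * d₀ + τ * d₁ = (τ - τ₀) * (d₁ - d₀) := fun τ => by
      linear_combination e
    have e3 : 0 < d₁ - d₀ := by linarith
    refine ⟨fun τ _ _ h6 => ?_, fun τ _ _ h6 => ?_, fun τ _ h6 _ => ?_⟩
    · rw [e2]
      exact mul_ne_zero (sub_ne_zero.2 h6) e3.ne'
    · rw [e2]
      constructor
      · intro h7
        nlinarith
      · intro h7
        linarith
    · rw [e2]
      exact ⟨fun _ => h3, fun _ => mul_pos (sub_pos.2 h6) e3⟩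
  · have e := hz (Or.inl ⟨h2, h3⟩)
    have e2 : ∀ τ, (1 - τ) * d₀ + τ * d₁ = (τ₀ - τ) * (d₀ - d₁) := fun τ => by
      linear_combination e
    have e3 : 0 < d₀ - d₁ := by linarith
    refine ⟨fun τ _ _ h6 => ?_, fun τ _ _ h6 => ?_, fun τ _ h6 _ => ?_⟩
    · rw [e2]
      exact mul_ne_zero (sub_ne_zero.2 (Ne.symm h6)) e3.ne'
    · rw [e2]
      exact ⟨fun _ => h2, fun _ => mul_pos (sub_pos.2 h6) e3⟩
    · rw [e2]
      constructor
      · intro h7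
        nlinarith
      · intro h7
        linarith
  · have key : ∀ τ, 0 ≤ τ → τ ≤ 1 → 0 < (1 - τ) * d₀ + τ * d₁ := by
      intro τ h4 h5
      rcases h4.eq_or_lt with h6 | h6
      · rw [← h6]
        linarith
      · nlinarith [mul_pos h6 h3]
    exact ⟨fun τ h4 h5 _ => (key τ h4 h5).ne', fun τ h4 h5 _ => ⟨fun _ => h2, fun _ =>
      key τ h4 h5⟩, fun τ h4 _ h5 => ⟨fun _ => h3, fun _ => key τ h4 h5⟩⟩

end Pool.Agent.Lib.MP_fd6ff4_co.R43
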