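import Mathlib
import Pool.Agent.Lib.MP_fd6ff4_co.R43.T1.Ridge.BumpA
import Pool.Agent.Lib.MP_fd6ff4_co.R43.T1.Ridge.BumpC
import Pool.Agent.Lib.MP_fd6ff4_co.R43.T1.Ridge.OneD

/-!
# The continuous bump of a crossing pair of ridge words
-/

set_option autoImplicit false

open Finset

namespace Pool.Agent.Lib.MP_fd6ff4_co.R43

variable {x z : Fin 3 → Fin 3 → ℤ} {W : Finset RW} {T : RW → RW → ℤ}
  {v : RW → RW → Fin 3 → ℤ}

/-- The continuous bump. PROOF. Let `γ τ = (1 - τ) E + τ E'` be the segment (`exists_seg_param`),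
`τ₀ ∈ (0, 1)` the parameter of the normalised point `v t t'` (`v_pos`, `v_mem`) and
`d τ = lin z t (γ τ) - lin z t' (γ τ)`, an affine function of `τ` with `d 0 = κ * sideVal .. p ≠ 0`
and `d 1 ≠ 0` (`indep`). If the signs at the ends are different then `d` has exactly the zero `τ₀`
(`v_odd`), otherwise it has no zero. By continuity `q (γ τ) > 3 a` for `|τ - τ₀| ≤ r`, for some
`a, r > 0`. Let `L₀` be the logarithm of `exists_log_segment` for the phases `φ₀ = 0` or `1` (parity of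
the side `p`) and `φ₁ = φ₀ - T t t'`, and `b τ = exp (L₀ τ) - d τ`, which vanishes for
`|τ - τ₀| ≥ r`. `B l = b (l p / E' p) * χ l` with `χ = 0` for `q l ≤ 2 a` and `χ = 1` for `q l ≥ 3 a`.
For other phases `φ` (with the same differences and parities) add `i π (φ p - φ₀)`, an even multiple
of `i π`. -/
theorem exists_bump_cont (h : RidgeCert x z W T v) {t t' : RW} (ht : t ∈ W) (ht' : t' ∈ W)
    (hc : Crossing x t t') {q : (Fin 3 → ℝ) → ℝ} (hq : IsPL q)
    (hqi : ∀ l : Fin 3 → ℝ, (∀ i, 0 ≤ l i) → ∀ i, q l ≤ l i)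
    (hqv : 0 < q fun i => (v t t' i : ℝ)) :
    ∃ (B : (Fin 3 → ℝ) → ℂ) (a : ℝ), 0 < a ∧ ContinuousOn B (stdSimplex ℝ (Fin 3)) ∧
      (∀ l ∈ stdSimplex ℝ (Fin 3), B l ≠ 0 → 2 * a ≤ q l) ∧ LogProp x z T t t' B := by
  obtain ⟨p, p', E, E', κ, κ', hpp, hitp, hitp', hits, hE, hE', hEp, hE'p', hE'p, hEp', hκ, hκ',
    hdE, hdE', hseg⟩ := exists_seg_param h ht ht' hc
  set δ : (Fin 3 → ℝ) →ₗ[ℝ] ℝ := lin z t - lin z t' with hδ
  have hδa : ∀ l, lin z t l - lin z t' l = δ l := fun l => rfl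
  set γ : ℝ → Fin 3 → ℝ := fun τ => (1 - τ) • E + τ • E' with hγ
  have hs : sideVal x z t t' p ≠ 0 := bumpB_side h ht ht' hitp
  have hs' : sideVal x z t t' p' ≠ 0 := bumpB_side h ht ht' hitp'
  have hd₀ : κ * sideVal x z t t' p ≠ 0 := mul_ne_zero hκ.ne' (Int.cast_ne_zero.2 hs)
  have hd₁ : κ' * sideVal x z t t' p' ≠ 0 := mul_ne_zero hκ'.ne' (Int.cast_ne_zero.2 hs')
  set d : ℝ → ℝ := fun τ => (1 - τ) * (κ * sideVal x z t t' p) +
    τ * (κ' * sideVal x z t t' p') with hd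
  have hγd : ∀ τ, δ (γ τ) = d τ := by
    intro τ
    rw [hγ, hd]
    simp only [map_add, map_smul, smul_eq_mul]
    rw [← hdE, ← hdE', hδa, hδa]
  -- the point `v`
  set vv : Fin 3 → ℝ := fun i => (v t t' i : ℝ) with hvv
  have hvpos : ∀ i, 0 < vv i := fun i => Int.cast_pos.2 (h.v_pos t ht t' ht' hc i)
  set S : ℝ := ∑ i, vv i with hS
  have hSpos : 0 < S := Finset.sum_pos (fun i _ => hvpos i) ⟨0, mem_univ _⟩
  have hvn : S⁻¹ • vv ∈ Seg x t t' := by
    refine ⟨⟨fun i => mul_nonneg (inv_nonneg.2 hSpos.le) (hvpos i).le, ?_⟩, ?_⟩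
    · simp only [Pi.smul_apply, smul_eq_mul]
      rw [← mul_sum, ← hS, inv_mul_cancel₀ hSpos.ne']
    · rw [map_smul, map_smul]
      congr 1
      rw [← sub_eq_zero, bumpB_lin]
      simp only [hvv]
      exact_mod_cast h.v_mem t ht t' ht' hc
  obtain ⟨hτ0, hτ1, hτe⟩ := hseg _ hvn
  set τ₀ : ℝ := (S⁻¹ • vv) p / E' p with hτ₀
  have hτpos : 0 < τ₀ := by
    rw [hτ₀]
    exact div_pos (mul_pos (inv_pos.2 hSpos) (hvpos p)) hE'p
  have hτlt : τ₀ < 1 := by
    have h1 := congrFun hτe p'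
    simp only [Pi.smul_apply, Pi.add_apply, smul_eq_mul, hE'p', mul_zero, add_zero] at h1
    have h2 : 0 < S⁻¹ * vv p' := mul_pos (inv_pos.2 hSpos) (hvpos p')
    rw [h1] at h2
    have h3 := (pos_iff_pos_of_mul_pos h2).2 hEp'
    linarith
  have hq0 : 0 < q (γ τ₀) := by
    have h1 : γ τ₀ = S⁻¹ • vv := hτe.symm
    rw [h1, hq.homog (inv_nonneg.2 hSpos.le) fun i => (hvpos i).le]
    exact mul_pos (inv_pos.2 hSpos) hqv
  -- signs
  obtain ⟨hne, hleft, hright⟩ := bumpB_sign (τ₀ := τ₀) hd₀ hd₁ (by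
    intro hcase
    have h1 : ∑ i, dd z t t' i * v t t' i = 0 := by
      rcases hcase with ⟨h2, h3⟩ | ⟨h2, h3⟩
      · refine h.v_odd t ht t' ht' hc p p' hitp hitp' ?_ ?_
        · exact Int.cast_pos.1 (pos_of_mul_pos_right h2 hκ.le)
        · by_contra h4
          push Not at h4
          have h5 : (0 : ℝ) ≤ sideVal x z t t' p' := Int.cast_nonneg h4
          exact absurd h3 (not_lt.2 (mul_nonneg hκ'.le h5))
      · refine h.v_odd t ht t' ht' hc p' p hitp' hitp ?_ ?_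
        · exact Int.cast_pos.1 (pos_of_mul_pos_right h3 hκ'.le)
        · by_contra h4
          push Not at h4
          have h5 : (0 : ℝ) ≤ sideVal x z t t' p := Int.cast_nonneg h4
          exact absurd h2 (not_lt.2 (mul_nonneg hκ.le h5))
    have h2 : δ vv = 0 := by
      rw [← hδa, bumpB_lin]
      simp only [hvv]
      exact_mod_cast h1
    have h3 := hγd τ₀
    have h4 : γ τ₀ = S⁻¹ • vv := hτe.symm
    rw [h4, map_smul, h2, smul_zero] at h3
    exact h3.symm)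
  -- the neighbourhood of `τ₀`
  have hγ0 : ∀ τ, 0 ≤ τ → τ ≤ 1 → ∀ i, 0 ≤ γ τ i := by
    intro τ h1 h2 i
    exact add_nonneg (mul_nonneg (sub_nonneg.2 h2) (hE.1.1 i)) (mul_nonneg h1 (hE'.1.1 i))
  have hγc : Continuous γ := by
    rw [hγ]
    fun_prop
  have hqc : ContinuousOn (fun τ => q (γ τ)) (Set.Icc 0 1) :=
    hq.continuousOn.comp hγc.continuousOn fun τ hτ => hγ0 τ hτ.1 hτ.2
  have hqa : ContinuousAt (fun τ => q (γ τ)) τ₀ := hqc.continuousAt (Icc_mem_nhds hτpos hτlt)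
  set a : ℝ := q (γ τ₀) / 4 with ha
  have hapos : 0 < a := by positivity
  obtain ⟨ε, hε, hball⟩ : ∃ ε > 0, ∀ τ, dist τ τ₀ < ε → (3 * a < q (γ τ) ∧ τ ∈ Set.Ioo (0 : ℝ) 1) := by
    have h1 : ∀ᶠ τ in nhds τ₀, 3 * a < q (γ τ) ∧ τ ∈ Set.Ioo (0 : ℝ) 1 :=
      (hqa.eventually (lt_mem_nhds (by rw [ha]; linarith))).and (Ioo_mem_nhds hτpos hτlt)
    exact Metric.eventually_nhds_iff.1 h1
  set r : ℝ := ε / 2 with hr
  have hrpos : 0 < r := by positivity
  have hrball : ∀ τ, |τ - τ₀| ≤ r → (3 * a < q (γ τ) ∧ τ ∈ Set.Ioo (0 : ℝ) 1) := by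
    intro τ hτ
    refine hball τ ?_
    rw [Real.dist_eq]
    linarith
  have hr0 : 0 < τ₀ - r := (hrball (τ₀ - r) (by
    rw [sub_sub_cancel_left, abs_neg, abs_of_pos hrpos])).2.1
  have hr1 : τ₀ + r < 1 := (hrball (τ₀ + r) (by
    rw [add_sub_cancel_left, abs_of_pos hrpos])).2.2
  -- the phases
  obtain ⟨φ₀, hφ₀⟩ : ∃ φ₀ : ℤ, Even φ₀ ↔ 0 < sideVal x z t t' p := by
    by_cases h1 : 0 < sideVal x z t t' p
    · exact ⟨0, by simp [h1]⟩
    · exact ⟨1, by simp [h1]⟩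
  have hpar := h.parity t ht t' ht' hc p p' hpp.ne hitp hitp'
  have hφ₁ : Even (φ₀ - T t t') ↔ 0 < sideVal x z t t' p' := by
    rw [Int.even_sub, hφ₀, hpar]
    tauto
  have hm0 : ∀ (k : ℝ) (m : ℤ), 0 < k → (0 < k * (m : ℝ) ↔ 0 < m) := by
    intro k m hk
    rw [mul_pos_iff_of_pos_left hk, Int.cast_pos]
  have hdc : Continuous d := by
    rw [hd]
    fun_prop
  obtain ⟨L, hLc, hL0, hL1, hLe⟩ := exists_log_segment (d := d) hdc hrpos hr0 hr1
    (fun τ h1 h2 h3 => hne τ h1 h2 h3) (φ₀ := φ₀) (φ₁ := φ₀ - T t t')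
    (fun τ h1 h2 => by rw [hφ₀, ← hm0 κ _ hκ]; exact hleft τ h1 (h2.le.trans hτlt.le) h2)
    (fun τ h1 h2 => by rw [hφ₁, ← hm0 κ' _ hκ']; exact hright τ (hτpos.le.trans h1.le) h1 h2)
  -- the bump
  set b : ℝ → ℂ := fun τ => Complex.exp (L τ) - d τ with hb
  have hbc : ContinuousOn b (Set.Icc 0 1) :=
    (Complex.continuous_exp.comp_continuousOn hLc).sub
      (Complex.continuous_ofReal.comp hdc).continuousOn
  set cl : ℝ → ℝ := fun τ => max 0 (min 1 τ) with hcl
  have hclc : Continuous cl := by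
    rw [hcl]
    fun_prop
  have hclm : ∀ τ, cl τ ∈ Set.Icc (0 : ℝ) 1 := fun τ =>
    ⟨le_max_left _ _, max_le zero_le_one (min_le_left _ _)⟩
  have hcl0 : ∀ τ, τ ≤ 0 → cl τ = 0 := fun τ hτ => max_eq_left ((min_le_right _ _).trans hτ)
  have hcl1 : ∀ τ, 1 ≤ τ → cl τ = 1 := fun τ hτ => by
    rw [hcl]
    simp [min_eq_left hτ]
  have hcli : ∀ τ, 0 ≤ τ → τ ≤ 1 → cl τ = τ := fun τ h1 h2 => by
    rw [hcl]
    simp [min_eq_right h2, h1]
  have hsimp : stdSimplex ℝ (Fin 3) ⊆ {l : Fin 3 → ℝ | ∀ i, 0 ≤ l i} := fun l hl => hl.1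
  have hqS : ContinuousOn q (stdSimplex ℝ (Fin 3)) := hq.continuousOn.mono hsimp
  set B : (Fin 3 → ℝ) → ℂ := fun l => b (cl (l p / E' p)) * ((cl ((q l - 2 * a) / a) : ℝ) : ℂ)
    with hB
  have hBseg : ∀ l ∈ Seg x t t', Complex.exp (L (l p / E' p)) = (δ l : ℝ) + B l := by
    intro l hl
    obtain ⟨h1, h2, h3⟩ := hseg l hl
    have h4 : δ l = d (l p / E' p) := by
      rw [← hγd]
      exact congrArg δ h3
    have h5 : B l = b (l p / E' p) := by
      rw [hB]
      simp only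
      rw [hcli _ h1 h2]
      rcases le_total |l p / E' p - τ₀| r with h6 | h6
      · have h7 := (hrball _ h6).1
        have h8 : γ (l p / E' p) = l := h3.symm
        rw [h8] at h7
        rw [hcl1 _ (by rw [le_div_iff₀ hapos]; linarith)]
        simp
      · have h7 : b (l p / E' p) = 0 := by
          rw [hb]
          simp only
          rw [hLe _ h1 h2 h6, sub_self]
        rw [h7, zero_mul]
    rw [h4, h5, hb]
    simp
  refine ⟨B, a, hapos, ?_, ?_, ?_⟩
  · refine ContinuousOn.mul ?_ ?_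
    · refine hbc.comp (Continuous.continuousOn ?_) fun l _ => hclm _
      exact hclc.comp ((continuous_apply p).div_const _)
    · refine Complex.continuous_ofReal.comp_continuousOn (hclc.comp_continuousOn ?_)
      exact (hqS.sub continuousOn_const).div_const _
  · intro l hl hBl
    by_contra h1
    push Not at h1
    apply hBl
    rw [hB]
    simp only
    rw [hcl0 ((q l - 2 * a) / a) (div_nonpos_of_nonpos_of_nonneg (by linarith) hapos.le)]
    simp
  · intro φ hφ hφ'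
    have hev : Even (φ p - φ₀) := by
      rw [Int.even_sub, hφ p hitp, hφ₀]
    refine ⟨fun l => L (l p / E' p) + Real.pi * ((φ p - φ₀ : ℤ) : ℂ) * Complex.I, ?_, ?_, ?_⟩
    · refine ContinuousOn.add (hLc.comp ?_ fun l hl => ⟨(hseg l hl).1, (hseg l hl).2.1⟩)
        continuousOn_const
      exact ((continuous_apply p).div_const _).continuousOn
    · intro l hl
      rw [Complex.exp_add, exp_pi_even hev, mul_one, hBseg l hl, hδa]
    · intro l hl c hlc
      obtain ⟨h1, h2, h3⟩ := hseg l hl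
      have h4 : δ l = d (l p / E' p) := by
        rw [← hγd]
        exact congrArg δ h3
      rw [hδa]
      rcases hits c (bumpB_hit h.x_inj hc hl hlc) with rfl | rfl
      · have h5 : l c / E' c = 0 := by rw [hlc, zero_div]
        simp only
        rw [h4, h5, hL0 0 le_rfl hr0.le]
        push_cast
        ring
      · have h5 : l p / E' p = 1 := by
          have h6 := congrFun h3 c
          simp only [Pi.smul_apply, Pi.add_apply, smul_eq_mul, hE'p', mul_zero, add_zero, hlc] at h6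
          have h7 := (mul_eq_zero.1 h6.symm).resolve_right hEp'.ne'
          linarith
        simp only
        rw [h4, h5, hL1 1 hr1.le le_rfl]
        have h6 := hφ' p c hpp hitp hitp'
        have h7 : T t t' = φ p - φ c := h6.symm
        rw [h7]
        push_cast
        ring

end Pool.Agent.Lib.MP_fd6ff4_co.R43
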