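import Mathlib
import Pool.Agent.Lib.MP_fd6ff4_co.R43.T1.Ridge.Defs
import Pool.Agent.Lib.MP_fd6ff4_co.R43.T1.Ridge.OneD
import Pool.Agent.Lib.MP_fd6ff4_co.R43.T1.PLDense
import Pool.Agent.Lib.MP_fd6ff4_co.R43.T1.Ridge.BumpA
import Pool.Agent.Lib.MP_fd6ff4_co.R43.T1.Ridge.BumpB

/-!
# The bump of a crossing pair of ridge words
-/

set_option autoImplicit false

open Finset

namespace Pool.Agent.Lib.MP_fd6ff4_co.R43

variable {x z : Fin 3 → Fin 3 → ℤ} {W : Finset RW} {T : RW → RW → ℤ}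
  {v : RW → RW → Fin 3 → ℤ}

/-- The piecewise linear bump. PROOF. `q` from `exists_gauge`, `B₀` and `a` from `exists_bump_cont`,
`τ l = max 0 (q l - a * ∑ l)`, which is `≥ a` where `B₀ ≠ 0` on the simplex. The continuous function
`lin z t - lin z t' + B₀` has no zero on the compact set `Seg x t t'` (it is an exponential), so its
norm is `≥ c > 0` there. Take for the real and imaginary parts of `B₀` the approximations of
`IsPL.dense_supp` with the error `c / 4`; then `exists_log_of_close` (at the sides `B = B₀ = 0` as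
`τ = 0` there). -/
theorem exists_bump (h : RidgeCert x z W T v) {t t' : RW} (ht : t ∈ W) (ht' : t' ∈ W)
    (hc : Crossing x t t') : ∃ (B : (Fin 3 → ℝ) → ℂ) (w : ℝ), 0 < w ∧
      (IsPL fun l => (B l).re) ∧ (IsPL fun l => (B l).im) ∧
      (∀ l : Fin 3 → ℝ, (∀ i, 0 ≤ l i) → B l ≠ 0 → (∀ i, w * ∑ j, l j ≤ l i) ∧
        ∀ s ∈ W, s ≠ t → s ≠ t' → lin x s l ≠ lin x t l) ∧
      LogProp x z T t t' B := by
  obtain ⟨q, hq, hqi, hqs, hqv⟩ := exists_gauge h ht ht' hc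
  obtain ⟨B₀, a, ha, hB₀, hBq, hlog⟩ := exists_bump_cont h ht ht' hc hq hqi hqv
  by_cases hφ : ∃ φ : Fin 3 → ℤ, (∀ c, Hit x t t' c → (Even (φ c) ↔ 0 < sideVal x z t t' c)) ∧
    (∀ c c', c < c' → Hit x t t' c → Hit x t t' c' → φ c - φ c' = T t t')
  swap
  · refine ⟨fun _ => 0, 1, one_pos, ?_, ?_, ?_, ?_⟩
    · simpa using IsPL.linear (0 : (Fin 3 → ℝ) →ₗ[ℝ] ℝ)
    · simpa using IsPL.linear (0 : (Fin 3 → ℝ) →ₗ[ℝ] ℝ)
    · intro l _ h0
      exact absurd rfl h0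
    · intro φ h1 h2
      exact absurd ⟨φ, h1, h2⟩ hφ
  obtain ⟨φ₀, hφ1, hφ2⟩ := hφ
  obtain ⟨L₀, hL₀, hexp₀, _⟩ := hlog φ₀ hφ1 hφ2
  have hlinc : ∀ s : RW, Continuous fun l : Fin 3 → ℝ => lin z s l := fun s =>
    (lin z s).continuous_of_finiteDimensional
  have hlinx : ∀ s : RW, Continuous fun l : Fin 3 → ℝ => lin x s l := fun s =>
    (lin x s).continuous_of_finiteDimensional
  have hsub : Seg x t t' ⊆ stdSimplex ℝ (Fin 3) := fun l hl => hl.1
  have hcomp : IsCompact (Seg x t t') := by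
    refine (isCompact_stdSimplex ℝ (Fin 3)).of_isClosed_subset ?_ hsub
    exact (isCompact_stdSimplex ℝ (Fin 3)).isClosed.inter (isClosed_eq (hlinx t) (hlinx t'))
  have hD : ContinuousOn (fun l : Fin 3 → ℝ => ((lin z t l - lin z t' l : ℝ) : ℂ) + B₀ l)
      (Seg x t t') :=
    (Complex.continuous_ofReal.comp ((hlinc t).sub (hlinc t'))).continuousOn.add (hB₀.mono hsub)
  have hDne : ∀ l ∈ Seg x t t', ((lin z t l - lin z t' l : ℝ) : ℂ) + B₀ l ≠ 0 := by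
    intro l hl
    rw [← hexp₀ l hl]
    exact Complex.exp_ne_zero _
  obtain ⟨C, hC⟩ := hcomp.exists_bound_of_continuousOn (hD.inv₀ hDne)
  have hC1 : 0 < max C 1 := lt_of_lt_of_le one_pos (le_max_right _ _)
  have hcle : ∀ l ∈ Seg x t t', (max C 1)⁻¹ ≤ ‖((lin z t l - lin z t' l : ℝ) : ℂ) + B₀ l‖ := by
    intro l hl
    have h1 := (hC l hl).trans (le_max_left C 1)
    rw [Pi.inv_apply, norm_inv] at h1
    exact inv_le_of_inv_le₀ (norm_pos_iff.2 (hDne l hl)) h1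
  set τ : (Fin 3 → ℝ) → ℝ := fun l => max 0 (q l + -a * ∑ j, l j) with hτdef
  have hsum : IsPL fun l : Fin 3 → ℝ => ∑ j, l j := by
    have h1 := IsPL.linear (∑ j, LinearMap.proj (R := ℝ) (φ := fun _ : Fin 3 => ℝ) j)
    simpa using h1
  have hτ : IsPL τ := by
    have h0 : IsPL fun _ : Fin 3 → ℝ => (0 : ℝ) := by
      simpa using IsPL.linear (0 : (Fin 3 → ℝ) →ₗ[ℝ] ℝ)
    exact h0.sup (hq.add (hsum.smul (-a)))
  have hτ0 : ∀ l : Fin 3 → ℝ, (∀ i, 0 ≤ l i) → 0 ≤ τ l := fun l _ => le_max_left _ _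
  have hτa : ∀ l ∈ stdSimplex ℝ (Fin 3), B₀ l ≠ 0 → a ≤ τ l := by
    intro l hl hne
    have h1 := hBq l hl hne
    have h2 : ∑ j, l j = 1 := hl.2
    refine le_trans ?_ (le_max_right _ _)
    rw [h2]
    linarith
  have hδ : 0 < (max C 1)⁻¹ / 4 := by positivity
  obtain ⟨φ1, p1, e1, z1⟩ := IsPL.dense_supp (f := fun l => (B₀ l).re)
    (Complex.continuous_re.comp_continuousOn hB₀) hτ hτ0 ha
    (fun l hl hne => hτa l hl fun h0 => hne (by rw [h0]; rfl)) hδ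
  obtain ⟨φ2, p2, e2, z2⟩ := IsPL.dense_supp (f := fun l => (B₀ l).im)
    (Complex.continuous_im.comp_continuousOn hB₀) hτ hτ0 ha
    (fun l hl hne => hτa l hl fun h0 => hne (by rw [h0]; rfl)) hδ
  have hBz : ∀ l : Fin 3 → ℝ, (∀ i, 0 ≤ l i) → τ l = 0 → (⟨φ1 l, φ2 l⟩ : ℂ) = 0 := by
    intro l hl h0
    rw [z1 l hl h0, z2 l hl h0]
    rfl
  refine ⟨fun l => ⟨φ1 l, φ2 l⟩, a, ha, p1, p2, ?_, ?_⟩
  · intro l hl hne
    have h1 : τ l ≠ 0 := fun h0 => hne (hBz l hl h0)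
    have h2 : 0 < q l + -a * ∑ j, l j := by
      by_contra hcon
      exact h1 (max_eq_left (not_lt.1 hcon))
    have h3 : 0 ≤ ∑ j, l j := Finset.sum_nonneg fun j _ => hl j
    have h4 : 0 ≤ a * ∑ j, l j := mul_nonneg ha.le h3
    refine ⟨fun i => ?_, fun s hs hst hst' heq => ?_⟩
    · have h5 := hqi l hl i
      linarith
    · have h5 := hqs l hl s hs hst hst'
      rw [heq, sub_self, abs_zero] at h5
      linarith
  · intro φ h1 h2
    obtain ⟨L, hL, hexp, hside⟩ := hlog φ h1 h2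
    have hD' : ContinuousOn (fun l : Fin 3 → ℝ => ((lin z t l - lin z t' l : ℝ) : ℂ) +
        (⟨φ1 l, φ2 l⟩ : ℂ)) (Seg x t t') := by
      refine (Complex.continuous_ofReal.comp ((hlinc t).sub (hlinc t'))).continuousOn.add ?_
      have hpos : Seg x t t' ⊆ {l : Fin 3 → ℝ | ∀ i, 0 ≤ l i} := fun l hl => hl.1.1
      have k1 : ContinuousOn (fun l : Fin 3 → ℝ => (φ1 l, φ2 l)) (Seg x t t') :=
        (p1.continuousOn.mono hpos).prodMk (p2.continuousOn.mono hpos)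
      exact Complex.equivRealProdCLM.symm.continuous.comp_continuousOn k1
    have hlt : ∀ l ∈ Seg x t t', ‖(((lin z t l - lin z t' l : ℝ) : ℂ) + (⟨φ1 l, φ2 l⟩ : ℂ)) -
        (((lin z t l - lin z t' l : ℝ) : ℂ) + B₀ l)‖ <
        ‖((lin z t l - lin z t' l : ℝ) : ℂ) + B₀ l‖ := by
      intro l hl
      refine lt_of_lt_of_le ?_ (hcle l hl)
      rw [add_sub_add_left_eq_sub]
      refine lt_of_le_of_lt (Complex.norm_le_abs_re_add_abs_im _) ?_
      have k1 := e1 l hl.1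
      have k2 := e2 l hl.1
      have k3 : ((⟨φ1 l, φ2 l⟩ : ℂ) - B₀ l).re = φ1 l - (B₀ l).re := rfl
      have k4 : ((⟨φ1 l, φ2 l⟩ : ℂ) - B₀ l).im = φ2 l - (B₀ l).im := rfl
      rw [k3, k4]
      linarith
    obtain ⟨L', hL', hexp', heq⟩ := exists_log_of_close hD hD' hL hexp hlt
    refine ⟨L', hL', hexp', ?_⟩
    intro l hl c hlc
    have hqc : q l ≤ 0 := hlc ▸ hqi l hl.1.1 c
    have k1 : B₀ l = 0 := by
      by_contra hne
      have := hBq l hl.1 hne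
      linarith
    have k2 : τ l = 0 := by
      refine max_eq_left ?_
      have h3 : 0 ≤ ∑ j, l j := Finset.sum_nonneg fun j _ => hl.1.1 j
      have h4 : 0 ≤ a * ∑ j, l j := mul_nonneg ha.le h3
      linarith
    have k3 : (⟨φ1 l, φ2 l⟩ : ℂ) = B₀ l := by rw [k1, hBz l hl.1.1 k2]
    rw [heq l hl (by rw [k3])]
    exact hside l hl c hlc

end Pool.Agent.Lib.MP_fd6ff4_co.R43
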