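import Mathlib
import Pool.Agent.Lib.MP_fd6ff4_co.R43.T1.Ridge.Bump

/-!
# The solution of the ridge problem
-/

set_option autoImplicit false

open Finset

namespace Pool.Agent.Lib.MP_fd6ff4_co.R43

variable {x z : Fin 3 → Fin 3 → ℤ} {W : Finset RW} {T : RW → RW → ℤ}
  {v : RW → RW → Fin 3 → ℤ}

private theorem sol_dd (p : Fin 3 → Fin 3 → ℤ) (t t' : RW) (i : Fin 3) :
    dd p t' t i = -dd p t t' i := by
  unfold dd
  ring

private theorem sol_hit {t t' : RW} {c : Fin 3} (h : Hit x t' t c) : Hit x t t' c := by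
  obtain ⟨a, b, ha, hb, h1, h2⟩ := h
  rw [sol_dd] at h1 h2
  exact ⟨b, a, hb, ha, by omega, by omega⟩

private theorem sol_cross {t t' : RW} (h : Crossing x t' t) : Crossing x t t' := by
  obtain ⟨h1, i, j, h2, h3⟩ := h
  rw [sol_dd] at h2 h3
  exact ⟨fun i => (h1 i).symm, j, i, by omega, by omega⟩

private theorem sol_side (t t' : RW) (c : Fin 3) :
    sideVal x z t' t c = -sideVal x z t t' c := by
  unfold sideVal
  simp only [sol_dd x t t', sol_dd z t t', abs_neg]
  ring

private theorem sol_fin3 : ∀ a b c : Fin 3, a ≠ c → b ≠ c → a ≠ b →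
    (a = c + 1 ∧ b = c + 2) ∨ (a = c + 2 ∧ b = c + 1) := by
  decide

private theorem sol_side_ne (h : RidgeCert x z W T v) {t t' : RW} (ht : t ∈ W) (ht' : t' ∈ W)
    {c : Fin 3} (hc : Hit x t t' c) : sideVal x z t t' c ≠ 0 := by
  obtain ⟨a, b, ha, hb, h1, h2⟩ := hc
  have hab : a ≠ b := by
    rintro rfl
    omega
  have h3 := h.indep t ht t' ht' a b hab h1 h2
  intro h4
  apply h3
  unfold sideVal at h4
  rcases sol_fin3 a b c ha hb hab with ⟨rfl, rfl⟩ | ⟨rfl, rfl⟩
  · rw [abs_of_pos h2, abs_of_neg h1] at h4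
    linarith
  · rw [abs_of_pos h2, abs_of_neg h1] at h4
    linarith

private theorem sol_seg {t t' : RW} {l : Fin 3 → ℝ} (h : l ∈ Seg x t t') : l ∈ Seg x t' t :=
  ⟨h.1, h.2.symm⟩

/-- the log property for the reversed pair -/
private theorem sol_rev (h : RidgeCert x z W T v) {t t' : RW} (ht : t ∈ W) (ht' : t' ∈ W)
    {B : (Fin 3 → ℝ) → ℂ} (hB : LogProp x z T t' t B) : LogProp x z T t t' fun l => -B l := by
  intro φ hφ hd
  obtain ⟨L, hL, he, hs⟩ := hB (fun c => φ c + 1) (fun c hc => by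
      have hc' := sol_hit hc
      have h0 := sol_side_ne h ht ht' hc'
      rw [sol_side, Int.even_add_one, hφ c hc']
      omega) (fun c c' hcc hc hc' => by
      have := hd c c' hcc (sol_hit hc) (sol_hit hc')
      rw [h.symm t' t, ← this]
      ring)
  refine ⟨fun l => L l - Real.pi * Complex.I, ?_, fun l hl => ?_, fun l hl c hc => ?_⟩
  · refine (hL.mono fun l hl => sol_seg hl).sub continuousOn_const
  · rw [Complex.exp_sub, Complex.exp_pi_mul_I, he l (sol_seg hl)]
    push_cast
    ring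
  · change L l - Real.pi * Complex.I = _
    rw [hs l (sol_seg hl) c hc, abs_sub_comm (lin z t l)]
    push_cast
    ring

/-- PROOF. Let `B t t'`, `w t t'` be as in `exists_bump` for the crossing pairs in `W` (`0` and `1`
for the other pairs), and `β t = ∑ t' ∈ W with Crossing x t t' and key t < key t'` of `B t t'`, where
`key : RW → ℕ` is injective; `w` is the minimum of the `w t t'` (or of these and `1`). On the set
`lin x t l = lin x t' l` (`t ≠ t'` in `W`) all the `B t s` with `s ≠ t'` and all the `B t' s` with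
`s ≠ t` vanish. So for crossing `t`, `t'` there `β t - β t'` is `B t t'` if `key t < key t'` and
`- B t' t` otherwise; in the second case use the log property of `(t', t)` with the phases `φ c + 1`
(`sideVal x z t' t c = - sideVal x z t t' c ≠ 0` by `indep`, `Hit` and `T` are symmetric) and subtract
`i π`. If `t` and `t'` have exactly one common letter then both `β t` and `β t'` vanish there (`t'` is
none of the `s` crossing `t`). -/
theorem exists_ridgeSol (h : RidgeCert x z W T v) :
    ∃ (β : RW → (Fin 3 → ℝ) → ℂ) (w : ℝ), 0 < w ∧ RidgeSol x z W T β w := by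
  classical
  have key0 : ∀ t t' : RW, ∃ (B : (Fin 3 → ℝ) → ℂ) (w : ℝ), 0 < w ∧
      (IsPL fun l => (B l).re) ∧ (IsPL fun l => (B l).im) ∧
      (∀ l : Fin 3 → ℝ, (∀ i, 0 ≤ l i) → B l ≠ 0 → (∀ i, w * ∑ j, l j ≤ l i) ∧
        ∀ s ∈ W, s ≠ t → s ≠ t' → lin x s l ≠ lin x t l) ∧
      (t ∈ W → t' ∈ W → Crossing x t t' → LogProp x z T t t' B) := by
    intro t t'
    by_cases hc : t ∈ W ∧ t' ∈ W ∧ Crossing x t t'
    · obtain ⟨B, w, h1, h2, h3, h4, h5⟩ := exists_bump h hc.1 hc.2.1 hc.2.2
      exact ⟨B, w, h1, h2, h3, h4, fun _ _ _ => h5⟩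
    · refine ⟨fun _ => 0, 1, one_pos, ?_, ?_, fun l _ h0 => absurd rfl h0,
        fun h1 h2 h3 => absurd ⟨h1, h2, h3⟩ hc⟩
      · simpa using IsPL.linear (0 : (Fin 3 → ℝ) →ₗ[ℝ] ℝ)
      · simpa using IsPL.linear (0 : (Fin 3 → ℝ) →ₗ[ℝ] ℝ)
  choose B w hw hre him hsup hlog using key0
  obtain ⟨p, hp⟩ := Finite.exists_min (fun p : RW × RW => w p.1 p.2)
  let key : RW → ℕ := fun t => (Fintype.equivFin RW t).val
  have hkey : Function.Injective key := fun a b hab =>
    (Fintype.equivFin RW).injective (Fin.ext hab)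
  let β : RW → (Fin 3 → ℝ) → ℂ := fun t l =>
    ∑ s ∈ W.filter (fun s => Crossing x t s ∧ key t < key s), B t s l
  -- on the line of `t` and `t'` only `B t t'` survives
  have hβ : ∀ t ∈ W, ∀ t' ∈ W, t ≠ t' → ∀ l : Fin 3 → ℝ, (∀ i, 0 ≤ l i) →
      lin x t l = lin x t' l → β t l = if Crossing x t t' ∧ key t < key t' then B t t' l else 0 := by
    intro t _ t' ht' hne l hl hx
    have hz : ∀ s, s ≠ t' → B t s l = 0 := by
      intro s hs
      by_contra h0
      exact (hsup t s l hl h0).2 t' ht' hne.symm hs.symm hx.symm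
    split_ifs with hc
    · exact Finset.sum_eq_single_of_mem t' (Finset.mem_filter.2 ⟨ht', hc⟩) fun s _ hs => hz s hs
    · refine Finset.sum_eq_zero fun s hs => hz s ?_
      rintro rfl
      exact hc (Finset.mem_filter.1 hs).2
  refine ⟨β, w p.1 p.2, hw _ _, ?_, ?_, ?_, ?_, ?_⟩
  · intro t
    have e : (fun l => (β t l).re) =
        fun l => ∑ s ∈ W.filter (fun s => Crossing x t s ∧ key t < key s), (B t s l).re := by
      funext l
      exact Complex.re_sum _ _
    rw [e]
    exact IsPL.sum _ fun s _ => hre t s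
  · intro t
    have e : (fun l => (β t l).im) =
        fun l => ∑ s ∈ W.filter (fun s => Crossing x t s ∧ key t < key s), (B t s l).im := by
      funext l
      exact Complex.im_sum _ _
    rw [e]
    exact IsPL.sum _ fun s _ => him t s
  · intro t l hl h0 i
    obtain ⟨s, -, hs⟩ := Finset.exists_ne_zero_of_sum_ne_zero h0
    refine le_trans ?_ ((hsup t s l hl hs).1 i)
    exact mul_le_mul_of_nonneg_right (hp (t, s)) (Finset.sum_nonneg fun j _ => hl j)
  · intro t ht t' ht' hcard l hl hx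
    obtain ⟨i, hi⟩ := Finset.card_pos.1 (by rw [hcard]; exact one_pos)
    have hi' : t i = t' i := (Finset.mem_filter.1 hi).2
    have hne : t ≠ t' := by
      rintro rfl
      simp at hcard
    rw [hβ t ht t' ht' hne l hl hx, hβ t' ht' t ht hne.symm l hl hx.symm,
      if_neg (fun hc => hc.1.1 i hi'), if_neg (fun hc => hc.1.1 i hi'.symm)]
  · intro t ht t' ht' hc
    have hne : t ≠ t' := by
      rintro rfl
      exact hc.1 0 rfl
    have hnn : ∀ l ∈ Seg x t t', ∀ i, 0 ≤ l i := fun l hl => hl.1.1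
    rcases lt_or_gt_of_ne (fun e => hne (hkey e)) with hk | hk
    · have e : ∀ l ∈ Seg x t t', β t l - β t' l = B t t' l := by
        intro l hl
        rw [hβ t ht t' ht' hne l (hnn l hl) hl.2, hβ t' ht' t ht hne.symm l (hnn l hl) hl.2.symm,
          if_pos ⟨hc, hk⟩, if_neg (fun h0 => absurd h0.2 (not_lt.2 hk.le)), sub_zero]
      intro φ h1 h2
      obtain ⟨L, hL, he, hs⟩ := hlog t t' ht ht' hc φ h1 h2
      exact ⟨L, hL, fun l hl => by rw [he l hl, e l hl], hs⟩
    · have e : ∀ l ∈ Seg x t t', β t l - β t' l = -B t' t l := by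
        intro l hl
        rw [hβ t ht t' ht' hne l (hnn l hl) hl.2, hβ t' ht' t ht hne.symm l (hnn l hl) hl.2.symm,
          if_neg (fun h0 => absurd h0.2 (not_lt.2 (le_of_lt hk))), if_pos ⟨sol_cross hc, hk⟩,
          zero_sub]
      intro φ h1 h2
      obtain ⟨L, hL, he, hs⟩ := sol_rev h ht ht' (hlog t' t ht' ht (sol_cross hc)) φ h1 h2
      exact ⟨L, hL, fun l hl => by rw [he l hl, e l hl], hs⟩

end Pool.Agent.Lib.MP_fd6ff4_co.R43
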